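import Pool.Agent.X163.MU.Main

/-!
# Murre's conjecture (B) and Bloch's conjecture for varieties dominated by surfaces

`𝒱` is a class of smooth projective geometrically irreducible varieties over the field `k` closed
under products (for the problem: all smooth projective varieties over `k`), `C` the Chow groups
with rational coefficients (in the form of their formal properties, `IsChowProj`), `H` a Weil
cohomology theory (`IsWeilProj`), and `SurfaceProperties H` records two known facts: homologically
trivial divisors on a product `X × Y` are sums of pull-backs of divisors from `X` and from `Y` (with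
rational coefficients), and every surface has a Chow-Kunneth decomposition as constructed by Murre.

Let `X` be a variety of any dimension `d` whose motive is a direct summand of a finite sum of twists
of motives of surfaces (`throughSurfaces`).

Theorem. (1) `X` has a Chow-Kunneth decomposition which satisfies (B) in all codimensions.
(2) For each codimension `l`, `F^(l+1) CH^l(X) = 0` for all Chow-Kunneth decompositions of `X` if and
only if homologically trivial idempotent correspondences act as zero on `CH^l(X)`; in this case also
`F^0 CH^l(X) = CH^l(X)` for all of them.
(3) Suppose that the cohomology of `X` in even degrees is spanned by classes of cycles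
(`EvenAlgebraic`). For example `X` is a surface with `p_g = 0`, or dominated by products of such
surfaces with projective spaces, or a uniruled threefold with `h^{2,0} = 0`. Then the conditions of
(2) hold if and only if homologically trivial cycles of codimension `l` are detected by curves
(`CurvesDetectOn`): a homologically trivial `x ∈ CH^l(X)` is zero if `Γ_* x = 0` in `Pic(T)` for all
curves `T` and all `Γ ∈ CH^(d+1-l)(X × T)`.

For a surface with `p_g = 0` and `l = 2` the last condition is Bloch's conjecture (the Albanese
kernel is zero). So (B) for this surface, for all its Chow-Kunneth decompositions, already its part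
`F^3 CH^2(X) = 0`, is equivalent to Bloch's conjecture; Murre's theorem gives (B) for one
decomposition.
-/

set_option autoImplicit false

open CategoryTheory AlgebraicGeometry

universe u v w

namespace Pool.Agent.Results.MP_d6e134_ag.AlgebraicEvenCohomology

open Pool.Agent.H914 Pool.Agent.W492.BB Pool.Agent.W550.Corr Pool.Agent.TH133
  Pool.Agent.X308.S Pool.Agent.X163.MU

/-- For a variety whose motive is a direct summand of a sum of twists of motives of surfaces there is
a Chow-Kunneth decomposition satisfying (B). For all Chow-Kunneth decompositions, (B) in codimension
`l` is equivalent to its second half, and to the vanishing of the action of homologically trivial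
idempotents on `CH^l(X)`; if the even cohomology is algebraic it is equivalent to the injectivity of
the maps to the Picard groups of curves on homologically trivial cycles of codimension `l`. -/
theorem result {k : Type u} [Field k] {𝒱 : VarClass k} (C : TheoryData.{u, v, 0} 𝒱 ℚ)
    [IsChowProj C] {K : Type w} [Field K] (H : WeilTheoryData.{u, v, w} C K) [IsWeilProj H]
    (hS : SurfaceProperties H) (X : 𝒱.Obj) (hX : dg C X ∈ throughSurfaces C X) :
    (∃ π, IsCK H X π ∧ ∀ l : ℕ, ckFil C π l 0 = C.gr X l ∧ ckFil C π l (l + 1) = ⊥) ∧
    ∀ l : ℕ, List.TFAE [MurreB0At H X l ∧ MurreB1At H X l, MurreB1At H X l,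
        PhantomsZeroOn H X l] ∧
      (EvenAlgebraic H X → (MurreB1At H X l ↔ CurvesDetectOn H X l)) := by
  obtain ⟨π, h, -, hw⟩ := exists_selfDual_CK (H := H) hS hX
  refine ⟨⟨π, h, fun l => ⟨B0_of_wt h hw l, B1_of_wt hS h hw l⟩⟩, fun l => ⟨?_, fun hE => ?_⟩⟩
  · have h1 := tfae_murreOn h (noRaising_of_wt hS hw) (B0_of_wt h hw l) (B1_of_wt hS h hw l)
      (D_of_wt hS h hw l)
    tfae_have 1 ↔ 2 := h1.out 0 1
    tfae_have 2 ↔ 3 := h1.out 1 4
    tfae_finish
  · exact (tfae_evenOn hS hX hE l).out 1 5

end Pool.Agent.Results.MP_d6e134_ag.AlgebraicEvenCohomology
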