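import Pool.Agent.X308.S.TriMain

/-!
# Murre's conjectures (B), (C), (D) for all decompositions of a variety with one good decomposition

`𝒱` is a class of smooth projective geometrically irreducible varieties over the field `k` closed
under products (for the problem: all smooth projective varieties over `k = ℂ`), `C` the Chow groups
with rational coefficients (in the form of their formal properties, `IsChowProj`) and `H` a Weil
cohomology theory (`IsWeilProj`).

Let `X` be a variety which has one Chow-Kunneth decomposition `π` such that
`π_a ∘ γ ∘ π_b = 0` for `b < a` and all self-correspondences `γ` of degree zero (`NoRaising`), and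
for which the filtration satisfies `F^0 CH^i(X) = CH^i(X)`, `F^(i+1) CH^i(X) = 0` and
`F^1 CH^i(X) = ker (cl)`. Every surface has such a decomposition (Murre; Kahn, Murre, Pedrini).

Theorem. For such a variety the following are equivalent:
(i) the conjecture (B), `F^0 CH^i(X) = CH^i(X)` and `F^(i+1) CH^i(X) = 0`, for all Chow-Kunneth
decompositions of `X`;
(ii) its second half, for all Chow-Kunneth decompositions;
(iii) the conjecture (C), the independence of the filtration from the decomposition;
(iv) the conjecture (D), `F^1 CH^i(X) = ker (cl)`, for all Chow-Kunneth decompositions;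
(v) homologically trivial idempotent self-correspondences of degree zero of `X` act as zero on the
Chow groups of `X`.

Steps of the proof. If a homologically trivial idempotent `p` acts non-trivially on `CH^l(X)` then so
does an entry `e = π_a ∘ p ∘ π_a`, which is idempotent since `π` is triangular, and `l ≤ a < 2 l` by
(B) and (D) for `π`; replacing `π_a`, `π_j` by `π_a - e`, `π_j + e` with `j = 0` gives a
decomposition violating (B) and (C), and with `j = 2 l` one violating (D). Conversely, if all these
idempotents act as zero then all filtrations are equal to the one of `π`, by considering the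
idempotent entries `π_a ∘ π'_b ∘ π_a`.
-/

set_option autoImplicit false

open CategoryTheory AlgebraicGeometry

universe u v w

namespace Pool.Agent.Results.MP_d6e134_ag.OneGoodDecomposition

open Pool.Agent.H914 Pool.Agent.W492.BB Pool.Agent.TH133 Pool.Agent.X308.S

/-- For a variety with one Chow-Kunneth decomposition which satisfies (B) and (D) and has no
weight-raising endomorphisms, the conjectures (B), (C) and (D) for all Chow-Kunneth decompositions
are equivalent to each other, and to the triviality of the action of homologically trivial
idempotents on the Chow groups. -/
theorem result {k : Type u} [Field k] {𝒱 : VarClass k} (C : TheoryData.{u, v, 0} 𝒱 ℚ)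
    [IsChowProj C] {K : Type w} [Field K] (H : WeilTheoryData.{u, v, w} C K) [IsWeilProj H]
    (X : 𝒱.Obj) (π : ℕ → C.A (X.prod X)) (hπ : IsCK H X π) (hT : NoRaising C π)
    (hB0 : ∀ i : ℕ, ckFil C π i 0 = C.gr X i) (hB1 : ∀ i : ℕ, ckFil C π i (i + 1) = ⊥)
    (hD : ∀ (i : ℕ) (x : C.A X), x ∈ ckFil C π i 1 ↔ C.Deg i x ∧ H.cl x = 0) :
    List.TFAE [MurreB0 H X ∧ MurreB1 H X, MurreB1 H X, MurreC H X, MurreD H X,
      PhantomsActTrivially H X] :=
  tfae_murre hπ hT hB0 hB1 hD

end Pool.Agent.Results.MP_d6e134_ag.OneGoodDecomposition
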