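import Pool.Agent.X308.S.ProdB

/-!
# Murre's conjecture (B) for products of two varieties dominated by surfaces

`𝒱` is a class of smooth projective geometrically irreducible varieties over the field `k` closed
under products (for example all of them), `C` the Chow groups with rational coefficients (in the
form of their formal properties, `IsChowProj`), `H` a Weil cohomology theory (`IsWeilProj`), and
`SurfaceProperties H` records two known facts: homologically trivial divisors on a product `X × Y`
are sums of pull-backs of divisors from `X` and from `Y` (with rational coefficients), and every
surface has a Chow-Kunneth decomposition as constructed by Murre.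

Let `X` and `Y` be varieties of any dimension whose motives are direct summands of finite sums of
twists of motives of surfaces (`throughSurfaces`; for example surfaces, uniruled threefolds,
varieties dominated by products of surfaces with projective spaces).

Theorem. `X` and `Y` have Chow-Kunneth decompositions such that the product decomposition of
`X × Y` satisfies Murre's conjecture (B): `F^0 CH^l(X × Y) = CH^l(X × Y)` and
`F^(l+1) CH^l(X × Y) = 0` for all `l`.

Steps of the proof. The part of weight `(i, j)` of `CH^l(X × Y)` consists of the correspondences
from `X` to `Y` of the form `ρ_j ∘ z ∘ ᵗπ_i`. These are zero if `i + j > 2 l`, since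
correspondences of any degree between varieties of this kind do not raise the weights; this is
reduced to homologically trivial divisors on products by factoring `h^1` and `h^3` of surfaces
through curves. For `i + j < l` the pieces `h^i(X)` and `h^j(Y)` are brought into a normal form:
direct summands of `h^2(S)(-m)` (`S` a surface), `h^1(T)(-m)` (`T` a curve) and of Lefschetz motives
with `m ≥ 0` (the exceptional pieces of the form `h^2(S)(1)` being of Lefschetz type), and the
relevant correspondences vanish for reasons of dimension.
-/

set_option autoImplicit false

open CategoryTheory AlgebraicGeometry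

universe u v w

namespace Pool.Agent.Results.MP_d6e134_ag.ProductsOfSurfaceType

open Pool.Agent.H914 Pool.Agent.H914.VarClass Pool.Agent.W492.BB Pool.Agent.W550.Corr
  Pool.Agent.TH133 Pool.Agent.X308.S

/-- Murre's conjecture (B) holds for the product Chow-Kunneth decomposition of `X × Y`, if the
motives of `X` and `Y` are direct summands of sums of twists of motives of surfaces. -/
theorem result {k : Type u} [Field k] {𝒱 : VarClass k} (C : TheoryData.{u, v, 0} 𝒱 ℚ)
    [IsChowProj C] {K : Type w} [Field K] (H : WeilTheoryData.{u, v, w} C K) [IsWeilProj H]
    (hS : SurfaceProperties H) (X Y : 𝒱.Obj) (hX : dg C X ∈ throughSurfaces C X)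
    (hY : dg C Y ∈ throughSurfaces C Y) :
    ∃ (π : ℕ → C.A (X.prod X)) (ρ : ℕ → C.A (Y.prod Y)), IsCK H X π ∧ IsCK H Y ρ ∧
      IsCK H (X.prod Y) (prodDec C π ρ) ∧
      ∀ l : ℕ, ckFil C (prodDec C π ρ) l 0 = C.gr (X.prod Y) l ∧
        ckFil C (prodDec C π ρ) l (l + 1) = ⊥ :=
  exists_prod_B hS hX hY

end Pool.Agent.Results.MP_d6e134_ag.ProductsOfSurfaceType
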