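import Pool.Agent.X163.MU.Three

/-!
# For threefolds Murre's conjecture (B) is the single vanishing `F^4 CH^3 = 0`

`𝒱` is a class of smooth projective geometrically irreducible varieties over the field `k` closed
under products (for example all of them), `C` the Chow groups with rational coefficients (in the
form of their formal properties, `IsChowProj`), `H` a Weil cohomology theory (`IsWeilProj`), and
`DivisorProperties H` records two known facts: homologically trivial divisors on a product `X × Y`
are sums of pull-backs of divisors from `X` and from `Y`, and a correspondence of degree zero which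
acts as zero on `H^1` acts as zero on homologically trivial divisors (rational coefficients).

Let `Y` be a threefold with a self-dual Chow-Kunneth decomposition `π` such that `π 0` and `π 1` are of
the form constructed by Murre for all varieties (`IsMurreType`). `ckFil` is the filtration
`F^k CH^i(Y) = (π_{2i-k} + ⋯ + π_0)_* CH^i(Y)`.

Theorem. (1) `F^0 CH^i(Y) = CH^i(Y)` for all `i`, and `F^(i+1) CH^i(Y) = 0` for all `i ≠ 3`.
(2) Suppose that `k` is such that the theorem of Bloch and Srinivas holds for `Y`
(`BlochSrinivas C Y`; for instance `k = ℂ`). Then the remaining vanishing `F^4 CH^3(Y) = 0` in (B)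
holds if and only if `h^2(Y)` is a direct summand of a sum of motives of surfaces
(`ThroughDim C 2 (π 2)`); and it implies the conjecture (D) for `π` in all codimensions.
-/

set_option autoImplicit false

open CategoryTheory AlgebraicGeometry

universe u v w

namespace Pool.Agent.Results.MP_d6e134_ag.ThreefoldsOneVanishing

open Pool.Agent.H914 Pool.Agent.W492.BB Pool.Agent.TH133 Pool.Agent.X308.P Pool.Agent.X163.MU

/-- For threefolds and decompositions of Murre's type, conjecture (B) holds up to the vanishing of
`F^4 CH^3(Y)`; this is equivalent to `h^2(Y)` being a direct summand of motives of surfaces, and it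
implies (D). -/
theorem result {k : Type u} [Field k] {𝒱 : VarClass k} (C : TheoryData.{u, v, 0} 𝒱 ℚ)
    [IsChowProj C] {K : Type w} [Field K] (H : WeilTheoryData.{u, v, w} C K) [IsWeilProj H]
    (hP : DivisorProperties H) (Y : 𝒱.Obj) (hY : Y.dim = 3) (π : ℕ → C.A (Y.prod Y))
    (hπ : IsMurreType H Y π) :
    (∀ i : ℕ, IsAll π i 0 ∧ (i ≠ 3 → IsZero π i (i + 1))) ∧
    (BlochSrinivas C Y → (IsZero π 3 4 ↔ ThroughDim C 2 (π 2)) ∧
      (IsZero π 3 4 → ∀ i : ℕ, IsKer H π i)) :=
  three_B hP hπ hY

end Pool.Agent.Results.MP_d6e134_ag.ThreefoldsOneVanishing
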